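import Mathlib
import Pool.Agent.Lib.FSig.Main
import Pool.Agent.Lib.FSig.FrRk
import Pool.Agent.Lib.FSig.Exact

/-!
# The number of free summands of `R^{1/p}` for the determinantal rings `R_{m,n,3}`

Let `m, n ≥ 3` and `N = m + n`.  For a perfect field `K` of characteristic `p` let `R = K[x_ij]/I_3(X)`,
where `X = (x_ij)` is the generic `m × n` matrix and `I_3(X)` is the ideal generated by its `3 × 3` minors
(`FSig.I3`, `FSig.R3`), and let `L = FSig.L3 m n K` be the localisation of `R` at the homogeneous maximal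
ideal, the kernel of the evaluation at the origin.

The `L`-module `L^{1/p}` is `L` itself, on which `r ∈ L` acts as multiplication by `r ^ p`.
`Pool.FSig.IsMaxFree L p a` says that `L^{1/p} = L^a ⊕ M` as `L`-modules, where `M` has no nonzero free
direct summand: `i : L^a → L^{1/p}`, `g : L^{1/p} → L^a` are linear, `g (i v) = v`, `M` is the kernel of
`g`, and no linear map `h : L^{1/p} → L` takes the value `1` on `M`.

The theorem: if `p > 2N` then `IsMaxFree L p a` holds exactly for `a = freeOne m n p`, an explicit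
polynomial in `p` of degree `2N - 4 = dim L`.  It is the first term of the sequence which defines the
F-signature of `L`.  The notation: `P_e(k) = binom(k p + m - 2 + e, N - 1)` (`FSig.pb`),
`α_e(k) = ∑_{i<k} (-1)^i binom(N,i) P_e(k-i)` (`FSig.al`),
`Θ(c) = ∑_{i<c} (-1)^i binom(N,i) ∑_{0<k<c-i} (P_1(k) P_1(c-i-k) - P_2(k) P_0(c-i-k))` (`FSig.TT`).
-/

namespace Pool.Agent.Results.MP_05de8f_ag.FreeSummands

open _root_.FSig

/-- `∑_{0<l<n} (α_2(n+l) α_0(n-l) - 2 α_1(n+l) α_1(n-l) + α_0(n+l) α_2(n-l)) + (-1)^n Θ(n) + (-1)^m Θ(2n-m)` -/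
def freeOne (m n p : ℕ) : ℤ :=
  (∑ l ∈ Finset.Ico 1 n, (al m n p (n + l) 2 * al m n p (n - l) 0
    - 2 * (al m n p (n + l) 1 * al m n p (n - l) 1) + al m n p (n + l) 0 * al m n p (n - l) 2))
    + (-1) ^ n * TT m n p n + (-1) ^ m * TT m n p (2 * n - m)

/-- For `m, n ≥ 3` and `p > 2(m+n)` the number of free summands of `L^{1/p}`, `L` the local ring of
`R_{m,n,3}` at the origin, is `freeOne m n p`; for `m = n = 3` it is `(241p⁸ + 210p⁶ + 9p⁴ + 20p²)/480`. -/
theorem result.{u} :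
    (∀ m n : ℕ, 3 ≤ m → 3 ≤ n → ∀ (p : ℕ) [Fact p.Prime], 2 * (m + n) < p →
      ∀ (K : Type u) [Field K] [CharP K p] [PerfectField K] (a : ℕ),
        Pool.FSig.IsMaxFree (L3 m n K) p a ↔ (a : ℤ) = freeOne m n p) ∧
    ∀ p : ℕ, 12 < p → 480 * freeOne 3 3 p =
      241 * (p : ℤ) ^ 8 + 210 * (p : ℤ) ^ 6 + 9 * (p : ℤ) ^ 4 + 20 * (p : ℤ) ^ 2 := by
  refine ⟨?_, fun p hp => ?_⟩
  · intro m n hm hn p _ hp K _ _ _ a
    have : PerfectRing K p := PerfectField.toPerfectRing p
    have h1 := Pool.FSig.isMaxFree_L3 m n (by omega) (by omega) p K 1 a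
    rw [freeRank_eq_rk m n (by omega) (by omega) p K 1, pow_one] at h1
    have h2 : ((rk (Rp m n K) p (mRp m n K) : ℕ) : ℤ) = freeOne m n p :=
      (rk_eq_Atot hm hn p K (by omega)).trans (Atot_closed m n p hm hn hp)
    rw [h1, ← h2]
    exact Nat.cast_inj.symm
  · rw [← Atot_33 p hp, Atot_closed 3 3 p le_rfl le_rfl hp]
    rfl

end Pool.Agent.Results.MP_05de8f_ag.FreeSummands
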