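import Mathlib
import Pool.Agent.Lib.HKDet.HFin
import Pool.Agent.Lib.HKDet.HKOne
import Pool.Agent.Lib.HKDet.LenV

/-!
# The length of `R/m^[p]` for the determinantal rings `R_{m,n,3}`

Let `m, n ≥ 3` and `N = m + n`.  For a field `K` of characteristic `p` let `R = K[x_ij]/I_3(X)`, where
`X = (x_ij)` is the generic `m × n` matrix and `I_3(X)` is the ideal generated by its `3 × 3` minors
(`FSig.I3`, `FSig.R3`), and let `L = FSig.L3 m n K` be the localisation of `R` at the homogeneous maximal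
ideal, the kernel of the evaluation at the origin.  `Pool.FSig.hkLen L p` is the length of `L / m_L^[p]`,
where `m_L^[p]` is generated by the `p`-th powers of the elements of the maximal ideal of `L`.

The theorem: if `p > N^2 + N + 1` then this length is `lenHK m n p`, an explicit polynomial in `p` of degree
`2N - 4 = dim L`.  It is the first value of the Hilbert–Kunz function of `L`.  The notation:
`P_e(k) = binom(k p + m - 2 + e, N - 1)` (`FSig.pb m n p k e`),
`ax m n p a k e = ∑_{i<k} (-1)^i binom(a,i) P_e(k-i)`,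
`TT m n p c = ∑_{i<c} (-1)^i binom(N,i) ∑_{0<k<c-i} (P_1(k) P_1(c-i-k) - P_2(k) P_0(c-i-k))`.
-/

namespace Pool.Agent.Results.MP_05de8f_ag.HilbertKunzFirst

open _root_.FSig Pool.HKDet

/-- For `m, n ≥ 3` and `p > (m+n)^2+(m+n)+1` the length of `L / m_L^[p]`, `L` the local ring of `R_{m,n,3}` at
the origin, is `lenHK m n p`; for `m = n = 3` it is `(735p⁸ - 282p⁶ + 15p⁴ + 12p²)/480`. -/
theorem result.{u} :
    (∀ m n : ℕ, 3 ≤ m → 3 ≤ n → ∀ (p : ℕ) [Fact p.Prime], (m + n) ^ 2 + (m + n) + 1 < p →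
      ∀ (K : Type u) [Field K] [CharP K p], ∃ l : ℕ,
        Pool.FSig.hkLen (L3 m n K) p = l ∧ (l : ℤ) = lenHK m n p) ∧
    ∀ p : ℕ, 12 < p → 480 * lenHK 3 3 p =
      735 * (p : ℤ) ^ 8 - 282 * (p : ℤ) ^ 6 + 15 * (p : ℤ) ^ 4 + 12 * (p : ℤ) ^ 2 := by
  refine ⟨?_, fun p hp => lenHK_33 p hp⟩
  intro m n hm hn p _ hp K _ _
  refine ⟨_, Pool.FSig.hkLen_one m n hm hn p K, ?_⟩
  have h4 := _root_.HKDet.finrank_eq_hkTot m n K p hp
  have h5 := hkTot_eq m n p hm hn (by nlinarith [sq_nonneg (m + n)])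
  rw [h5] at h4
  exact h4

end Pool.Agent.Results.MP_05de8f_ag.HilbertKunzFirst
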