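import Mathlib
import Pool.Agent.Lib.HKDet.HFin
import Pool.Agent.Lib.HKDet.HKVal

/-!
# The limit of the Hilbert–Kunz multiplicities of the determinantal rings `R_{m,n,3}`

Let `m, n ≥ 3`, `N = m + n` and `d = 2N - 4`.  For a perfect field `K` of characteristic `p` let
`R = K[x_ij]/I_3(X)`, where `X = (x_ij)` is the generic `m × n` matrix and `I_3(X)` is the ideal generated
by its `3 × 3` minors (`FSig.I3`, `FSig.R3`), and let `L = FSig.L3 m n K` be the localisation of `R` at the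
homogeneous maximal ideal, the kernel of the evaluation at the origin.  Its dimension is `d`.
`Pool.FSig.hkLen L q` is the length of `L / m_L^[q]`, where `m_L^[q]` is generated by the `q`-th powers of
the elements of the maximal ideal of `L`.

The theorem.  There is a constant `C`, depending on `m` and `n` only, such that for every prime `p` and
every perfect field `K` of characteristic `p` all these lengths (`q = p ^ e`) are finite, the
Hilbert–Kunz multiplicity `s = lim length(L / m_L^[p^e]) / p ^ (e d)` exists and `|s - λ(m,n)| ≤ C / p`,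
where `λ(m,n) = lamHK m n` is an explicit rational number.  So the Hilbert–Kunz multiplicity of `R_{m,n,3}`
tends to `λ(m,n)` for `p → ∞`.

`λ(m,n)` (`Pool.HKDet.lamHK`, in `Pool/Agent/Lib/HKDet/KDefs.lean`), with
`s(a,r,k) = (1/r!) ∑_{i<k} (-1)^i binom(a,i) (k-i)^r` (`Pool.HKDet.sp`) and
`G_k = ∑_{0<x<k} (d²/dx²) (x(k-x))^(N-1)` (`FSig.Gk`), `H(c) = ∑_{0<k≤c} (-1)^k binom(N,c-k) G_k` (`FSig.Hc`), is the sum of
* `s(n,N-2,n)² - s(n,N-1,n) s(n,N-3,n)`, `s(m,N-2,m)² - s(m,N-1,m) s(m,N-3,m)`, `-(s(N,N-2,n)² - s(N,N-1,n) s(N,N-3,n))`,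
* `∑_{0<a<n, 0<b<m, 0<l<n-a} binom(a+m-1,m-1) binom(b+n-1,n-1) (u_3 v_1 - 2 u_2 v_2 + u_1 v_3)`, `u_j = s(N,N-j,n+b+l)`, `v_j = s(N,N-j,n-a-l)`,
* `-(m ∑_{1≤c≤n} binom(n,c) H(n+c-1) + n ∑_{2≤s≤m} binom(m,s) H(n+1-s)) / (2 (N-1)!²)`.
-/

namespace Pool.Agent.Results.MP_05de8f_ag.HilbertKunzLimit

open _root_.FSig Pool.HKDet Filter Topology

/-- For all `m, n ≥ 3` the Hilbert–Kunz multiplicity of `R_{m,n,3}` over a perfect field of characteristic
`p` is `λ(m,n) + O(1/p)`, uniformly in the field; the first values of `λ`. -/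
theorem result.{u} :
    (∀ m n : ℕ, 3 ≤ m → 3 ≤ n → ∃ C : ℝ, ∀ (p : ℕ) [Fact p.Prime] (K : Type u) [Field K] [CharP K p]
      [PerfectField K],
        (∀ e : ℕ, Pool.FSig.hkLen (L3 m n K) (p ^ e) ≠ ⊤) ∧ ∃ s : ℝ,
        Tendsto (fun e : ℕ => ((Pool.FSig.hkLen (L3 m n K) (p ^ e)).toNat : ℝ) /
          (p : ℝ) ^ (e * (2 * (m + n) - 4))) atTop (𝓝 s) ∧
        |s - ((lamHK m n : ℚ) : ℝ)| ≤ C / p) ∧
    lamHK 3 3 = 49 / 32 ∧ lamHK 3 4 = 10009 / 4800 ∧ lamHK 4 4 = 36131 / 12960 ∧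
    lamHK 3 5 = 726863 / 241920 := by
  refine ⟨fun m n hm hn => ?_, lamHK_33, lamHK_34, lamHK_44, lamHK_35⟩
  obtain ⟨C, hC⟩ := _root_.HKDet.result'.{u} m n hm hn
  refine ⟨C, ?_⟩
  intro p _ K _ _ _
  have : PerfectRing K p := PerfectField.toPerfectRing p
  exact hC p K

end Pool.Agent.Results.MP_05de8f_ag.HilbertKunzLimit
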