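import Mathlib
import Pool.Agent.Lib.FSig.Main
import Pool.Agent.Lib.FSig.Exact

/-!
# The limit of the F-signatures of the determinantal rings `R_{m,n,3}`

Let `m, n ≥ 3`, `N = m + n` and `d = 2N - 4`.  For a perfect field `K` of characteristic `p` let
`R = K[x_ij]/I_3(X)`, where `X = (x_ij)` is the generic `m × n` matrix and `I_3(X)` is the ideal generated
by its `3 × 3` minors (`FSig.I3`, `FSig.R3`), and let `L = FSig.L3 m n K` be the localisation of `R` at the
homogeneous maximal ideal, the kernel of the evaluation at the origin.  Its dimension is `d`.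

For `q = p ^ e` the `L`-module `L^{1/q}` is `L` itself, on which `r ∈ L` acts as multiplication by `r ^ q`.
`Pool.FSig.IsMaxFree L q a` says that `L^{1/q} = L^a ⊕ M` as `L`-modules, where `M` has no nonzero free
direct summand: `i : L^a → L^{1/q}`, `g : L^{1/q} → L^a` are linear, `g (i v) = v`, `M` is the kernel of
`g`, and no linear map `h : L^{1/q} → L` takes the value `1` on `M`.

The theorem.  There is a constant `C`, depending on `m` and `n` only, such that for every prime `p` and
every perfect field `K` of characteristic `p`: for every `e` there is exactly one `a e` as above, the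
F-signature `s = lim a e / p ^ (e d)` of `L` exists, and `|s - σ(m,n)| ≤ C / p`, where
`σ(m,n) = FSig.sigma m n` is an explicit rational number.  So the F-signature of `R_{m,n,3}` tends to
`σ(m,n)` for `p → ∞`.

With the cardinal B-spline `M_N` of order `N` (`FSig.bspl`, its first two derivatives `FSig.bspl1`,
`FSig.bspl2`) and `G_k = ∑_{0<a<k} (d²/dx²) (x(k-x))^(N-1)` at `x = a` (`FSig.Gk`), `σ(m,n)` is
`∑_{0<j<n} (d²/dx²) (M_N(n+x) M_N(n-x))` at `x = j`, minus
`(∑_{k≤n} (-1)^k binom(N,n-k) G_k + ∑_{k≤2n-m} (-1)^k binom(N,2n-m-k) G_k) / (2 (N-1)!²)`.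
-/

namespace Pool.Agent.Results.MP_05de8f_ag.LimitValue

open _root_.FSig Filter Topology

/-- For all `m, n ≥ 3` the F-signature of `R_{m,n,3}` over a perfect field of characteristic `p` is
`σ(m,n) + O(1/p)`, uniformly in the field; the first values of `σ`. -/
theorem result.{u} :
    (∀ m n : ℕ, 3 ≤ m → 3 ≤ n → ∃ C : ℝ, ∀ (p : ℕ) [Fact p.Prime] (K : Type u) [Field K] [CharP K p]
      [PerfectField K], ∃ (a : ℕ → ℕ) (s : ℝ),
        (∀ e b : ℕ, Pool.FSig.IsMaxFree (L3 m n K) (p ^ e) b ↔ b = a e) ∧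
        Tendsto (fun e : ℕ => (a e : ℝ) / (p : ℝ) ^ (e * (2 * (m + n) - 4))) atTop (𝓝 s) ∧
        |s - ((sigma m n : ℚ) : ℝ)| ≤ C / p) ∧
    sigma 3 3 = 241 / 480 ∧ sigma 3 4 = 3899 / 14400 ∧ sigma 4 4 = 70859 / 226800 := by
  refine ⟨fun m n hm hn => ?_, sigma_33, sigma_34, sigma_44⟩
  obtain ⟨C, hC⟩ := _root_.FSig.main.{u} m n hm hn
  refine ⟨C, ?_⟩
  intro p _ K _ _ _
  have : PerfectRing K p := PerfectField.toPerfectRing p
  obtain ⟨s, hs1, hs2⟩ := hC p K
  exact ⟨fun e => freeRank (L3 m n K) (p ^ e), s,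
    fun e b => Pool.FSig.isMaxFree_L3 m n (by omega) (by omega) p K e b, hs1, hs2⟩

end Pool.Agent.Results.MP_05de8f_ag.LimitValue
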